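import Pool.Agent.G4.RE.Main
import Pool.Agent.G4.H.Sml

/-!
# G4 RE Sml: few bad points, from local equations of `D` and `B`

As `K/Sml`, without a condition on the differential of the equation `s` of `D`: the points of `D \ B` at which `a` is tangent to `D` are in `Bd D a`, and `B ∩ D` is a local complete intersection.
-/

set_option autoImplicit false

open Topology Filter Metric

namespace Pool.Agent.G4.RE

open Pool.Agent.H36.BP (EN)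
open Pool.Agent.AD (Vd)
open Pool.Agent.TG (Lat VForm TransAt IsCoord)
open Pool.Agent.G3.A (Frm Ba)
open Pool.Agent.G4.H
open Pool.Agent.G4.K

variable {N k : ℕ} {X : Set (EN N)} {Λ Γ : AddSubgroup (Vd (k + 1))} {u : EN N → Vd (k + 1)} {D B : Set (Vd (k + 1))} {J r : ℕ}
  {W : Fin r → Vd (k + 1) →L[ℂ] ℂ} {α : Fin J → VForm X Λ u} {a : Vd (k + 1)}

/-- local equations: near the points of `D`, `D = {s = 0}`, `B = {s = t = 0}`; `D \ B` is dense in `D` -/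
def Lq (D B : Set (Vd (k + 1))) : Prop :=
  D ⊆ closure (D \ B) ∧ ∀ y ∈ D, ∃ s t : Vd (k + 1) → ℂ, AnalyticAt ℂ s y ∧ AnalyticAt ℂ t y ∧
    ∀ᶠ z in 𝓝 y, (z ∈ D ↔ s z = 0) ∧ (z ∈ B ↔ s z = 0 ∧ t z = 0)

theorem Lq.closed (hD : IsClosed D) (hE : Lq D B) : IsClosed (B ∩ D) := by
  rw [← isOpen_compl_iff, isOpen_iff_mem_nhds]
  intro y hy
  by_cases hyD : y ∈ D
  · obtain ⟨s, t, hs, ht, h⟩ := hE.2 y hyD
    have h1 : t y ≠ 0 := fun h0 => hy ⟨h.self_of_nhds.2.2 ⟨h.self_of_nhds.1.1 hyD, h0⟩, hyD⟩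
    filter_upwards [h, ht.continuousAt.eventually_ne h1] with z hz hz1 hz2
    exact hz1 (hz.2.1 hz2.1).2
  · filter_upwards [hD.isOpen_compl.mem_nhds hyD] with z hz hz2
    exact hz hz2.2

theorem Lq.ci (hL : LDi D) (hE : Lq D B) : CI (B ∩ D) := by
  intro y hy
  obtain ⟨s, t, hs, ht, h⟩ := hE.2 y hy.2
  refine ⟨s, t, hs, ht, ?_, ?_, ?_⟩
  · obtain ⟨a, ha⟩ : ∃ a : Vd (k + 1), a ≠ 0 := exists_ne 0
    have h2 := hL a ha y 0
    have h3 : Tendsto (fun w : ℂ => w • a + y) (𝓝[≠] 0) (𝓝 y) := by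
      have h4 : ContinuousAt (fun w : ℂ => w • a + y) 0 := by fun_prop
      have h5 := h4.tendsto
      rw [zero_smul, zero_add] at h5
      exact h5.mono_left nhdsWithin_le_nhds
    refine h3.frequently (Eventually.frequently ?_)
    filter_upwards [h2, h3.eventually h] with w hw1 hw2 hw3
    exact hw1 (hw2.1.2 hw3)
  · filter_upwards [h] with z hz
    rw [Set.mem_inter_iff, hz.1, hz.2]
    tauto
  · filter_upwards [h.eventually_nhds] with z hz hz0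
    have hzD : z ∈ D := hz.self_of_nhds.1.2 hz0
    have h1 := mem_closure_iff_frequently.1 (hE.1 hzD)
    refine (h1.and_eventually hz).mono ?_
    rintro p ⟨hp1, hp2⟩
    exact ⟨hp2.1.1 hp1.1, fun ht0 => hp1.2 (hp2.2.2 ⟨hp2.1.1 hp1.1, ht0⟩)⟩

theorem Few.uni {Z₁ Z₂ Z : Set (Vd (k + 1))} (h1 : Few Z₁ a) (h2 : Few Z₂ a) (h : Z ⊆ Z₁ ∪ Z₂) : Few Z a := by
  classical
  intro ε hε
  obtain ⟨C₁, hC₁⟩ := h1 (ε / 2) (half_pos hε)
  obtain ⟨C₂, hC₂⟩ := h2 (ε / 2) (half_pos hε)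
  refine ⟨C₁ + C₂, fun y R hR S hS => ?_⟩
  have e1 : S.card ≤ (S.filter fun z => y + z • a ∈ Z₁).card + (S.filter fun z => y + z • a ∈ Z₂).card := by
    rw [← Finset.card_union_add_card_inter]
    refine le_add_right (Finset.card_le_card fun z hz => ?_)
    rw [Finset.mem_union, Finset.mem_filter, Finset.mem_filter]
    rcases h (hS z hz).2 with h3 | h3
    · exact Or.inl ⟨hz, h3⟩
    · exact Or.inr ⟨hz, h3⟩
  have e2 := hC₁ y R hR (S.filter fun z => y + z • a ∈ Z₁) fun z hz => ⟨(hS z (Finset.mem_filter.1 hz).1).1, (Finset.mem_filter.1 hz).2⟩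
  have e3 := hC₂ y R hR (S.filter fun z => y + z • a ∈ Z₂) fun z hz => ⟨(hS z (Finset.mem_filter.1 hz).1).1, (Finset.mem_filter.1 hz).2⟩
  have e4 : (S.card : ℝ) ≤ ((S.filter fun z => y + z • a ∈ Z₁).card : ℝ) + ((S.filter fun z => y + z • a ∈ Z₂).card : ℝ) := by
    exact_mod_cast e1
  linarith

/-- the derivative of a function which is `0` on `D` is `0` on the tangent space of `D` -/
private theorem dr {κ : Vd (k + 1) → Vd (k + 1)} {p : Vd (k + 1)} (h : IsCoord D κ p) {f : Vd (k + 1) → ℂ} (hf : AnalyticAt ℂ f p)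
    (h0 : ∀ᶠ x in 𝓝 p, x ∈ D → f x = 0) {q : Vd (k + 1)} (hq : q 0 = 0) : fderiv ℂ f p (fderiv ℂ κ 0 q) = 0 := by
  have h5 : HasDerivAt (fun z : ℂ => z • q) q 0 := by
    have := (hasDerivAt_id (0 : ℂ)).smul_const q
    simpa using this
  have h6 : HasDerivAt (fun z : ℂ => κ (z • q)) (fderiv ℂ κ 0 q) 0 := by
    have h7 : HasFDerivAt κ (fderiv ℂ κ 0) ((0 : ℂ) • q) := by
      rw [zero_smul]
      exact h.an.differentiableAt.hasFDerivAt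
    exact h7.comp_hasDerivAt (0 : ℂ) h5
  have h8 : κ ((0 : ℂ) • q) = p := by
    rw [zero_smul]
    exact h.zero
  have h9 : HasDerivAt (fun z : ℂ => f (κ (z • q))) (fderiv ℂ f p (fderiv ℂ κ 0 q)) 0 := by
    have h10 : HasFDerivAt f (fderiv ℂ f p) (κ ((0 : ℂ) • q)) := by
      rw [h8]
      exact hf.differentiableAt.hasFDerivAt
    exact h10.comp_hasDerivAt (0 : ℂ) h6
  have h11 : Tendsto (fun z : ℂ => z • q) (𝓝 0) (𝓝 0) := by
    have := h5.continuousAt.tendsto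
    rwa [zero_smul] at this
  have h12 : Tendsto (fun z : ℂ => κ (z • q)) (𝓝 0) (𝓝 p) := by
    have := h6.continuousAt.tendsto
    rwa [h8] at this
  have h13 : ∀ᶠ z : ℂ in 𝓝 0, f (κ (z • q)) = 0 := by
    filter_upwards [h12.eventually h0, h11.eventually h.mem_iff] with z hz1 hz2
    exact hz1 (hz2.2 (by simp [hq]))
  have h14 : (fun z : ℂ => f (κ (z • q))) =ᶠ[𝓝 0] fun _ => 0 := h13
  exact h9.unique (((hasDerivAt_const (0 : ℂ) (0 : ℂ)).congr_of_eventuallyEq h14))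

theorem ba_bd (hco : ∀ y ∈ D, y ∉ B → ∃ κ : Vd (k + 1) → Vd (k + 1), IsCoord D κ y) (ha : a ≠ 0) : Ba D B a ⊆ (B ∩ D) ∪ Bd D a := by
  rintro q ⟨hqD, hq⟩
  by_cases hqB : q ∈ B
  · exact Or.inl ⟨hqB, hqD⟩
  refine Or.inr ⟨hqD, ?_⟩
  rintro ⟨s, hs, -, hsa, hsD⟩
  have h1 : ¬ TransAt D q a := hq.resolve_left hqB
  have h2 : ∃ κ : Vd (k + 1) → Vd (k + 1), IsCoord D κ q ∧ ∃ v : Vd (k + 1), v 0 = 0 ∧ fderiv ℂ κ 0 v = a := by
    by_contra hn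
    exact h1 ⟨ha, fun κ hκ v hv hva => hn ⟨κ, hκ, v, hv, hva⟩⟩
  obtain ⟨κ, hκ, v, hv, hva⟩ := h2
  rw [← hva] at hsa
  exact hsa (dr hκ hs (hsD.mono fun z hz hzD => hz.1 hzD) hv)

theorem few_lq (hΛ : Lat Λ) (hs : Simp Λ) (hF : Frm X Λ u D Γ W α) (hx : ∃ y ∉ D, ∃ x ∈ X, u x - y ∈ Λ) (hDc : IsClosed D) (hDi : ∀ y ∈ D, ∀ l ∈ Λ, y + l ∈ D)
    (hBi : ∀ y ∈ B, ∀ l ∈ Λ, y + l ∈ B) (hL : LDi D) (hE : Lq D B) (hco : ∀ y ∈ D, y ∉ B → ∃ κ : Vd (k + 1) → Vd (k + 1), IsCoord D κ y) (ha : a ≠ 0) : Few (Ba D B a) a := by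
  obtain ⟨e, T⟩ := thf_of_frm hF hx
  have hD : ∀ y ∈ D, ∃ δ : Vd (k + 1) → ℂ, AnalyticAt ℂ δ y ∧ ∀ᶠ z in 𝓝 y, (z ∈ D ↔ δ z = 0) := by
    intro y hy
    obtain ⟨s, t, hs, ht, h⟩ := hE.2 y hy
    exact ⟨s, hs, h.mono fun z hz => hz.1⟩
  exact Few.uni (few_ci hΛ hs hF hx (hE.closed hDc) (fun y hy l hl => ⟨hBi y hy.1 l hl, hDi y hy.2 l hl⟩) (hE.ci hL) ha)
    (few_bd T hΛ hs hF.le hDc hDi hD hL ha) (ba_bd hco ha)

end Pool.Agent.G4.RE
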