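import Pool.Agent.G4.RE.Defs

/-!
# G4 RE Alg: the different roots

If `b` is not injective on `S` then `dd b S = 0`.  If `b` has `q` values and is injective on `S`, `S.card = q`, then `S.image b = univ.image b`, so `dd b S = ∏ p ∈ (univ.image b).offDiag, (p.1 - p.2)` and `∏ i ∈ S, (t - b i) = ∏ v ∈ univ.image b, (t - v)`;
there is such an `S`.  If `b` has fewer than `q` values, `b` is not injective on `S`.
-/

set_option autoImplicit false

namespace Pool.Agent.G4.RE

variable {n q : ℕ} {b : Fin n → ℂ}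

/-- not injective: the product of the differences is `0` -/
private theorem dd_zero {S : Finset (Fin n)} (h : ¬ Set.InjOn b S) : dd b S = 0 := by
  unfold Set.InjOn at h
  push Not at h
  obtain ⟨i, hi, j, hj, hij, hne⟩ := h
  exact Finset.prod_eq_zero (i := (i, j)) (Finset.mem_offDiag.2 ⟨hi, hj, hne⟩) (sub_eq_zero.2 hij)

private theorem img_eq {S : Finset (Fin n)} (hS : S.card = q) (h : (Finset.univ.image b).card = q) (hi : Set.InjOn b S) : S.image b = Finset.univ.image b := by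
  refine Finset.eq_of_subset_of_card_le (Finset.image_subset_image (Finset.subset_univ S)) ?_
  rw [Finset.card_image_of_injOn hi, hS, h]

private theorem dd_eq {S : Finset (Fin n)} (hS : S.card = q) (h : (Finset.univ.image b).card = q) (hi : Set.InjOn b S) :
    dd b S = ∏ p ∈ (Finset.univ.image b).offDiag, (p.1 - p.2) := by
  rw [← img_eq hS h hi]
  unfold dd
  refine Finset.prod_nbij (fun p => (b p.1, b p.2)) ?_ ?_ ?_ fun _ _ => rfl
  · rintro ⟨i, j⟩ hp
    rw [Finset.mem_offDiag] at hp ⊢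
    exact ⟨Finset.mem_image_of_mem b hp.1, Finset.mem_image_of_mem b hp.2.1, fun e => hp.2.2 (hi hp.1 hp.2.1 e)⟩
  · rintro ⟨i, j⟩ hp ⟨i', j'⟩ hp' e
    rw [Finset.mem_coe, Finset.mem_offDiag] at hp hp'
    simp only [Prod.mk.injEq] at e ⊢
    exact ⟨hi hp.1 hp'.1 e.1, hi hp.2.1 hp'.2.1 e.2⟩
  · rintro ⟨v, w⟩ hp
    rw [Finset.mem_coe, Finset.mem_offDiag] at hp
    obtain ⟨h1, h2, h3⟩ := hp
    obtain ⟨i, hi', e1⟩ := Finset.mem_image.1 h1
    obtain ⟨j, hj', e2⟩ := Finset.mem_image.1 h2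
    refine ⟨(i, j), ?_, by simp only [e1, e2]⟩
    rw [Finset.mem_coe, Finset.mem_offDiag]
    refine ⟨hi', hj', fun e => h3 ?_⟩
    rw [← e1, ← e2, show i = j from e]

private theorem exists_inj (h : (Finset.univ.image b).card = q) : ∃ S : Finset (Fin n), S.card = q ∧ Set.InjOn b S := by
  classical
  have h1 : ∀ v ∈ Finset.univ.image b, ∃ i, b i = v := fun v hv => by
    obtain ⟨i, _, e⟩ := Finset.mem_image.1 hv
    exact ⟨i, e⟩
  rcases isEmpty_or_nonempty (Fin n) with hn | hn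
  · refine ⟨∅, ?_, fun i hi => absurd hi (by simp)⟩
    rw [← h, Finset.univ_eq_empty, Finset.image_empty, Finset.card_empty, Finset.card_empty]
  · choose! g hg using h1
    refine ⟨(Finset.univ.image b).image g, ?_, ?_⟩
    · rw [Finset.card_image_of_injOn, h]
      intro v hv w hw e
      rw [← hg v hv, ← hg w hw, e]
    · intro i hi j hj e
      rw [Finset.mem_coe] at hi hj
      obtain ⟨v, hv, rfl⟩ := Finset.mem_image.1 hi
      obtain ⟨w, hw, rfl⟩ := Finset.mem_image.1 hj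
      rw [hg v hv, hg w hw] at e
      rw [e]

theorem sc_ne (h : (Finset.univ.image b).card = q) : sc q b ≠ 0 := by
  classical
  obtain ⟨S₀, h1, h2⟩ := exists_inj h
  have h3 : sc q b = ((Finset.powersetCard q Finset.univ).filter fun S : Finset (Fin n) => Set.InjOn b S).card • ∏ p ∈ (Finset.univ.image b).offDiag, (p.1 - p.2) := by
    unfold sc
    rw [← Finset.sum_filter_of_ne (p := fun S : Finset (Fin n) => Set.InjOn b S) fun S _ hS => by
      by_contra h4
      exact hS (dd_zero h4)]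
    refine Finset.sum_eq_card_nsmul fun S hS => ?_
    rw [Finset.mem_filter, Finset.mem_powersetCard] at hS
    exact dd_eq hS.1.2 h hS.2
  rw [h3]
  refine smul_ne_zero ?_ ?_
  · refine (Finset.card_pos.2 ⟨S₀, ?_⟩).ne'
    rw [Finset.mem_filter, Finset.mem_powersetCard]
    exact ⟨⟨Finset.subset_univ _, h1⟩, h2⟩
  · refine Finset.prod_ne_zero_iff.2 fun p hp => ?_
    exact sub_ne_zero.2 (Finset.mem_offDiag.1 hp).2.2

theorem sd_eq (h : (Finset.univ.image b).card = q) (t : ℂ) : sd q b t = sc q b * ∏ v ∈ Finset.univ.image b, (t - v) := by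
  unfold sd sc
  rw [Finset.sum_mul]
  refine Finset.sum_congr rfl fun S hS => ?_
  by_cases hi : Set.InjOn b S
  · rw [← img_eq (Finset.mem_powersetCard.1 hS).2 h hi, Finset.prod_image hi]
  · rw [dd_zero hi, zero_mul, zero_mul]

private theorem not_inj {S : Finset (Fin n)} (hS : S.card = q) (h : (Finset.univ.image b).card < q) : ¬ Set.InjOn b S := by
  intro hi
  have h1 := Finset.card_le_card (Finset.image_subset_image (f := b) (Finset.subset_univ S))
  rw [Finset.card_image_of_injOn hi, hS] at h1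
  omega

theorem sc_zero (h : (Finset.univ.image b).card < q) : sc q b = 0 :=
  Finset.sum_eq_zero fun _ hS => dd_zero (not_inj (Finset.mem_powersetCard.1 hS).2 h)

theorem sd_zero (h : (Finset.univ.image b).card < q) (t : ℂ) : sd q b t = 0 :=
  Finset.sum_eq_zero fun S hS => by rw [dd_zero (not_inj (Finset.mem_powersetCard.1 hS).2 h), zero_mul]

/-- bounds for the product of the different roots -/
theorem img_le {r : ℝ} (hr : 0 < r) (hb : ∀ i, ‖b i‖ ≤ r) (h : (Finset.univ.image b).card = q) (t : ℂ) :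
    ‖∏ v ∈ Finset.univ.image b, (t - v)‖ ≤ (‖t‖ + r) ^ q ∧ ‖∏ i, (t - b i)‖ ≤ (1 + ‖t‖ + r) ^ (n * n) * ‖∏ v ∈ Finset.univ.image b, (t - v)‖ ∧
      ‖∏ v ∈ Finset.univ.image b, (t - v)‖ ^ n ≤ (1 + ‖t‖ + r) ^ (n * n) * ‖∏ i, (t - b i)‖ := by
  classical
  have ht : 0 ≤ ‖t‖ := norm_nonneg t
  have hA : ∀ v ∈ Finset.univ.image b, ‖t - v‖ ≤ ‖t‖ + r := fun v hv => by
    obtain ⟨i, _, rfl⟩ := Finset.mem_image.1 hv
    exact (norm_sub_le _ _).trans (by linarith [hb i])
  have hB1 : 1 ≤ 1 + ‖t‖ + r := by linarith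
  have hA' : ∀ v ∈ Finset.univ.image b, ‖t - v‖ ≤ 1 + ‖t‖ + r := fun v hv => (hA v hv).trans (by linarith)
  have hq : q ≤ n := by
    have := Finset.card_image_le (s := (Finset.univ : Finset (Fin n))) (f := b)
    rw [h, Finset.card_univ, Fintype.card_fin] at this
    exact this
  set m : ℂ → ℕ := fun v => (Finset.univ.filter fun i => b i = v).card with hm
  have hm1 : ∀ v ∈ Finset.univ.image b, 1 ≤ m v := fun v hv => by
    obtain ⟨i, _, e⟩ := Finset.mem_image.1 hv
    exact Finset.card_pos.2 ⟨i, Finset.mem_filter.2 ⟨Finset.mem_univ i, e⟩⟩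
  have hm2 : ∀ v, m v ≤ n := fun v => by
    have := Finset.card_le_univ (Finset.univ.filter fun i => b i = v)
    rwa [Fintype.card_fin] at this
  have hP : ∏ i, (t - b i) = ∏ v ∈ Finset.univ.image b, (t - v) ^ m v := Finset.prod_comp (fun v : ℂ => t - v) b
  have hpw : ∀ k l : ℕ, k ≤ l → (1 + ‖t‖ + r) ^ k ≤ (1 + ‖t‖ + r) ^ l := fun k l hkl => pow_le_pow_right₀ hB1 hkl
  have hBq : ∏ _v ∈ Finset.univ.image b, (1 + ‖t‖ + r) ^ n ≤ (1 + ‖t‖ + r) ^ (n * n) := by
    rw [Finset.prod_const, h, ← pow_mul]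
    exact hpw _ _ (Nat.mul_le_mul le_rfl hq)
  refine ⟨?_, ?_, ?_⟩
  · rw [norm_prod, ← h, ← Finset.prod_const]
    exact Finset.prod_le_prod (fun v _ => norm_nonneg _) hA
  · rw [hP, norm_prod, norm_prod]
    calc ∏ v ∈ Finset.univ.image b, ‖(t - v) ^ m v‖ ≤ ∏ v ∈ Finset.univ.image b, ((1 + ‖t‖ + r) ^ n * ‖t - v‖) := by
          refine Finset.prod_le_prod (fun v _ => norm_nonneg _) fun v hv => ?_
          obtain ⟨k, hk⟩ := Nat.exists_eq_add_of_le' (hm1 v hv)
          rw [norm_pow, hk, pow_succ]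
          refine mul_le_mul_of_nonneg_right ?_ (norm_nonneg _)
          exact (pow_le_pow_left₀ (norm_nonneg _) (hA' v hv) k).trans (hpw _ _ (by have := hm2 v; omega))
      _ = (∏ _v ∈ Finset.univ.image b, (1 + ‖t‖ + r) ^ n) * ∏ v ∈ Finset.univ.image b, ‖t - v‖ := Finset.prod_mul_distrib
      _ ≤ _ := mul_le_mul_of_nonneg_right hBq (Finset.prod_nonneg fun v _ => norm_nonneg _)
  · rw [hP, norm_prod, norm_prod, ← Finset.prod_pow]
    calc ∏ v ∈ Finset.univ.image b, ‖t - v‖ ^ n ≤ ∏ v ∈ Finset.univ.image b, ((1 + ‖t‖ + r) ^ n * ‖(t - v) ^ m v‖) := by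
          refine Finset.prod_le_prod (fun v _ => pow_nonneg (norm_nonneg _) _) fun v hv => ?_
          rw [norm_pow]
          have h1 : ‖t - v‖ ^ n = ‖t - v‖ ^ (n - m v) * ‖t - v‖ ^ m v := by
            rw [← pow_add, Nat.sub_add_cancel (hm2 v)]
          rw [h1]
          refine mul_le_mul_of_nonneg_right ?_ (pow_nonneg (norm_nonneg _) _)
          exact (pow_le_pow_left₀ (norm_nonneg _) (hA' v hv) _).trans (hpw _ _ (Nat.sub_le _ _))
      _ = (∏ _v ∈ Finset.univ.image b, (1 + ‖t‖ + r) ^ n) * ∏ v ∈ Finset.univ.image b, ‖(t - v) ^ m v‖ := Finset.prod_mul_distrib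
      _ ≤ _ := mul_le_mul_of_nonneg_right hBq (Finset.prod_nonneg fun v _ => norm_nonneg _)

end Pool.Agent.G4.RE
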