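import Pool.Agent.G4.K.Defs

/-!
# G4 RE Defs: reduced local equations of analytic hypersurfaces; definitions

`Gd D y a`: at the point `y` the set `D` is a smooth hypersurface, and `a` is not tangent.  `Bd D a`: the other points of `D`.  `dd b S`: the product of the differences `b i - b j`, `i ≠ j` in `S`.  `sc q b`, `sd q b t`: if the roots `b i` have exactly
`q` values, then `sc q b ≠ 0` and `sd q b t = sc q b * ∏ v, (t - v)`, `v` the different roots; if they have fewer values: `sc q b = 0`.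
-/

set_option autoImplicit false

open Topology Filter Metric

namespace Pool.Agent.G4.RE

/-- `D` is smooth at `y` and `a` is not tangent -/
def Gd {V : Type} [NormedAddCommGroup V] [NormedSpace ℂ V] (D : Set V) (y a : V) : Prop :=
  ∃ s : V → ℂ, AnalyticAt ℂ s y ∧ s y = 0 ∧ fderiv ℂ s y a ≠ 0 ∧ ∀ᶠ z in 𝓝 y, (z ∈ D ↔ s z = 0)

/-- the bad points -/
def Bd {V : Type} [NormedAddCommGroup V] [NormedSpace ℂ V] (D : Set V) (a : V) : Set V := {y | y ∈ D ∧ ¬ Gd D y a}

/-- the product of the differences -/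
noncomputable def dd {n : ℕ} (b : Fin n → ℂ) (S : Finset (Fin n)) : ℂ := ∏ p ∈ S.offDiag, (b p.1 - b p.2)

noncomputable def sc {n : ℕ} (q : ℕ) (b : Fin n → ℂ) : ℂ := ∑ S ∈ Finset.powersetCard q Finset.univ, dd b S

noncomputable def sd {n : ℕ} (q : ℕ) (b : Fin n → ℂ) (t : ℂ) : ℂ := ∑ S ∈ Finset.powersetCard q Finset.univ, dd b S * ∏ i ∈ S, (t - b i)

end Pool.Agent.G4.RE
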