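import Pool.Agent.G4.RE.Rd
import Pool.Agent.G4.K.Main

/-!
# G4 RE Main: the bad points of an analytic hypersurface are a local complete intersection
-/

set_option autoImplicit false

open Topology Filter Metric

namespace Pool.Agent.G4.RE

open Pool.Agent.AD (Vd)
open Pool.Agent.TG (Lat)
open Pool.Agent.G3 (wt)
open Pool.Agent.G4.H
open Pool.Agent.G4.K

variable {k r : ℕ} {D : Set (Vd (k + 1))}

theorem bd_cl (hD : IsClosed D) (a : Vd (k + 1)) : IsClosed (Bd D a) := by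
  rw [← isOpen_compl_iff, isOpen_iff_mem_nhds]
  intro y hy
  by_cases hyD : y ∈ D
  · have hg : Gd D y a := by
      by_contra hn
      exact hy ⟨hyD, hn⟩
    obtain ⟨s, hs, -, hsa, hsD⟩ := hg
    have h1 : ∀ᶠ z in 𝓝 y, fderiv ℂ s z a ≠ 0 := by
      have h2 : ContinuousAt (fun z => fderiv ℂ s z a) y :=
        (((ContinuousLinearMap.apply ℂ ℂ a).analyticAt _).comp hs.fderiv).continuousAt
      exact h2.eventually_ne hsa
    filter_upwards [h1, hs.eventually_analyticAt, hsD.eventually_nhds] with z hz1 hz2 hz3 hz4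
    exact hz4.2 ⟨s, hz2, hz3.self_of_nhds.1 hz4.1, hz1, hz3⟩
  · filter_upwards [hD.isOpen_compl.mem_nhds hyD] with z hz hz2
    exact hz hz2.1

theorem bd_inv {Λ : AddSubgroup (Vd (k + 1))} (hD : ∀ y ∈ D, ∀ l ∈ Λ, y + l ∈ D) (a : Vd (k + 1)) : ∀ y ∈ Bd D a, ∀ l ∈ Λ, y + l ∈ Bd D a := by
  intro y hy l hl
  refine ⟨hD y hy.1 l hl, ?_⟩
  rintro ⟨s, hs, hs0, hsa, hsD⟩
  refine hy.2 ⟨fun z => s (z + l), ?_, hs0, ?_, ?_⟩
  · exact AnalyticAt.fun_comp hs (analyticAt_id.add analyticAt_const)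
  · rw [fderiv_comp_add_right]
    exact hsa
  · have h1 : Tendsto (fun z : Vd (k + 1) => z + l) (𝓝 y) (𝓝 (y + l)) := by
      have h2 : ContinuousAt (fun z : Vd (k + 1) => z + l) y := by fun_prop
      exact h2
    filter_upwards [h1.eventually hsD] with z hz
    rw [← hz]
    constructor
    · exact fun h => hD z h l hl
    · intro h
      have h2 := hD (z + l) h (-l) (Λ.neg_mem hl)
      rwa [add_neg_cancel_right] at h2

private theorem exists_coord {k : ℕ} {e : Vd (k + 1)} (he : e ≠ 0) :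
    ∃ T : (Vd k × ℂ) ≃L[ℂ] Vd (k + 1), T (0, 1) = e := by
  obtain ⟨W, hW⟩ := Submodule.exists_isCompl (Submodule.span ℂ {e})
  have h1 : Module.finrank ℂ (Submodule.span ℂ {e}) = 1 := finrank_span_singleton he
  have h2 : Module.finrank ℂ W = k := by
    have := Submodule.finrank_add_eq_of_isCompl hW
    have h3 : Module.finrank ℂ (Vd (k + 1)) = k + 1 := by simp
    omega
  have h3 : Module.finrank ℂ (Vd k) = Module.finrank ℂ W := by rw [h2]; simp
  let A : Vd k ≃ₗ[ℂ] W := LinearEquiv.ofFinrankEq _ _ h3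
  let B : ℂ ≃ₗ[ℂ] Submodule.span ℂ {e} := LinearEquiv.toSpanNonzeroSingleton ℂ (Vd (k + 1)) e he
  let T : (Vd k × ℂ) ≃ₗ[ℂ] Vd (k + 1) := (A.prodCongr B).trans (Submodule.prodEquivOfIsCompl W (Submodule.span ℂ {e}) hW.symm)
  refine ⟨T.toContinuousLinearEquiv, ?_⟩
  have h4 : (B 1 : Vd (k + 1)) = (1 : ℂ) • e := by simp [B]
  simp [T, h4]

private theorem gd_comp {V V' : Type} [NormedAddCommGroup V] [NormedSpace ℂ V] [NormedAddCommGroup V'] [NormedSpace ℂ V'] {D : Set V} {y a : V} (L : V' ≃L[ℂ] V) (c : V) (h : Gd D y a) :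
    Gd {p | c + L p ∈ D} (L.symm (y - c)) (L.symm a) := by
  obtain ⟨s, hs, hs0, hsa, hsD⟩ := h
  have h0 : c + L (L.symm (y - c)) = y := by
    rw [ContinuousLinearEquiv.apply_symm_apply]
    abel
  have hL : ∀ p, AnalyticAt ℂ (fun p => c + L p) p := fun p => analyticAt_const.add ((L : V' →L[ℂ] V).analyticAt p)
  refine ⟨fun p => s (c + L p), ?_, ?_, ?_, ?_⟩
  · refine AnalyticAt.fun_comp (g := s) ?_ (hL _)
    rw [h0]
    exact hs
  · simp only [h0]
    exact hs0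
  · have h1 : HasFDerivAt (fun p => c + L p) (L : V' →L[ℂ] V) (L.symm (y - c)) := (L : V' →L[ℂ] V).hasFDerivAt.const_add c
    have h2 : HasFDerivAt s (fderiv ℂ s y) (c + L (L.symm (y - c))) := by
      rw [h0]
      exact hs.differentiableAt.hasFDerivAt
    have h3 : HasFDerivAt (fun p => s (c + L p)) ((fderiv ℂ s y).comp (L : V' →L[ℂ] V)) (L.symm (y - c)) :=
      HasFDerivAt.comp (g := s) (f := fun p => c + L p) _ h2 h1
    have h4 : fderiv ℂ (fun p => s (c + L p)) (L.symm (y - c)) = (fderiv ℂ s y).comp (L : V' →L[ℂ] V) := h3.fderiv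
    rw [h4]
    simpa using hsa
  · have h1 : Tendsto (fun p => c + L p) (𝓝 (L.symm (y - c))) (𝓝 y) := by
      have h2 := (hL (L.symm (y - c))).continuousAt.tendsto
      rwa [h0] at h2
    exact h1.eventually hsD

theorem ci_bd (hD : ∀ y ∈ D, ∃ δ : Vd (k + 1) → ℂ, AnalyticAt ℂ δ y ∧ ∀ᶠ z in 𝓝 y, (z ∈ D ↔ δ z = 0)) {a : Vd (k + 1)} (ha : a ≠ 0) (hl : ∀ y ∈ D, ∀ᶠ z : ℂ in 𝓝[≠] 0, y + z • a ∉ D) : CI (Bd D a) := by
  intro y hy
  obtain ⟨δ, hδ, hδD⟩ := hD y hy.1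
  obtain ⟨L, hL⟩ := exists_coord ha
  have hLan : ∀ p, AnalyticAt ℂ (fun p => y + L p) p := fun p => analyticAt_const.add ((L : (Vd k × ℂ) →L[ℂ] Vd (k + 1)).analyticAt p)
  have hLt : Tendsto (fun p => y + L p) (𝓝 0) (𝓝 y) := by
    have h2 := (hLan 0).continuousAt.tendsto
    simpa using h2
  have hline : Tendsto (fun w : ℂ => ((0 : Vd k), w)) (𝓝[≠] 0) (𝓝 0) := by
    have h1 : ContinuousAt (fun w : ℂ => ((0 : Vd k), w)) 0 := by fun_prop
    exact h1.tendsto.mono_left nhdsWithin_le_nhds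
  have hLw : ∀ w : ℂ, y + L ((0 : Vd k), w) = y + w • a := by
    intro w
    rw [← hL, ← map_smul]
    simp
  have hf : AnalyticAt ℂ (fun p => δ (y + L p)) (0, 0) := by
    refine AnalyticAt.fun_comp (g := δ) ?_ (hLan _)
    have h1 : y + L ((0 : Vd k), (0 : ℂ)) = y := by
      have h2 : L ((0 : Vd k), (0 : ℂ)) = 0 := map_zero L
      rw [h2, add_zero]
    rw [h1]
    exact hδ
  have hf0 : ∀ᶠ w in 𝓝[≠] (0 : ℂ), δ (y + L ((0 : Vd k), w)) ≠ 0 := by
    filter_upwards [hl y hy.1, (hLt.comp hline).eventually hδD] with w hw1 hw2 hw3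
    refine hw1 ?_
    rw [← hLw w]
    exact hw2.2 hw3
  obtain ⟨s, hs, hs2⟩ := red (f := fun p => δ (y + L p)) hf hf0
  have hMan : ∀ z, AnalyticAt ℂ (fun z => L.symm (z - y)) z := by
    intro z
    have h1 : AnalyticAt ℂ (fun z : Vd (k + 1) => z - y) z := analyticAt_id.sub analyticAt_const
    exact AnalyticAt.fun_comp ((L.symm : Vd (k + 1) →L[ℂ] (Vd k × ℂ)).analyticAt _) h1
  have hMt : ∀ z, Tendsto (fun z => L.symm (z - y)) (𝓝 z) (𝓝 (L.symm (z - y))) := fun z => (hMan z).continuousAt.tendsto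
  have hM0 : L.symm (y - y) = 0 := by simp
  have hLM : ∀ z, y + L (L.symm (z - y)) = z := by
    intro z
    rw [ContinuousLinearEquiv.apply_symm_apply]
    abel
  have hML : ∀ p, L.symm (y + L p - y) = p := by
    intro p
    rw [add_sub_cancel_left, ContinuousLinearEquiv.symm_apply_apply]
  -- the equation
  have hσ : AnalyticAt ℂ (fun z => s (L.symm (z - y))) y := by
    refine AnalyticAt.fun_comp (g := s) ?_ (hMan y)
    rw [hM0]
    exact hs
  have hMty : Tendsto (fun z => L.symm (z - y)) (𝓝 y) (𝓝 0) := by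
    have := hMt y
    rwa [hM0] at this
  have hsan : ∀ᶠ z in 𝓝 y, AnalyticAt ℂ s (L.symm (z - y)) := hMty.eventually hs.eventually_analyticAt
  have hder : ∀ z, AnalyticAt ℂ s (L.symm (z - y)) → fderiv ℂ (fun z => s (L.symm (z - y))) z a = fderiv ℂ s (L.symm (z - y)) (0, 1) := by
    intro z hz
    have h1 : HasFDerivAt (fun z : Vd (k + 1) => L.symm (z - y)) (L.symm : Vd (k + 1) →L[ℂ] (Vd k × ℂ)) z :=
      (L.symm : Vd (k + 1) →L[ℂ] (Vd k × ℂ)).hasFDerivAt.comp z ((hasFDerivAt_id z).sub_const y)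
    have h2 := (hz.differentiableAt.hasFDerivAt.comp z h1).fderiv
    have h3 : fderiv ℂ (fun z => s (L.symm (z - y))) z = (fderiv ℂ s (L.symm (z - y))).comp (L.symm : Vd (k + 1) →L[ℂ] (Vd k × ℂ)) := h2
    rw [h3, ← hL]
    simp
  have hev := hMty.eventually hs2
  refine ⟨fun z => s (L.symm (z - y)), fun z => fderiv ℂ (fun z => s (L.symm (z - y))) z a, hσ, ((ContinuousLinearMap.apply ℂ ℂ a).analyticAt _).comp hσ.fderiv, ?_, ?_, ?_⟩
  · -- not identically zero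
    have h1 : Tendsto (fun w : ℂ => y + w • a) (𝓝[≠] 0) (𝓝 y) := by
      have h2 : ContinuousAt (fun w : ℂ => y + w • a) 0 := by fun_prop
      have h3 := h2.tendsto
      rw [zero_smul, add_zero] at h3
      exact h3.mono_left nhdsWithin_le_nhds
    refine h1.frequently (Eventually.frequently ?_)
    filter_upwards [hl y hy.1, h1.eventually hδD, h1.eventually hev] with w hw1 hw2 hw3
    intro hw4
    refine hw1 (hw2.2 ?_)
    have h4 := hw3.1.1 hw4
    rwa [hLM] at h4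
  · filter_upwards [hδD.eventually_nhds, hev, hsan, hMty.eventually hs2.eventually_nhds] with z hz1 hz2 hz3 hz4
    have hzD := hz1.self_of_nhds
    have h1 : s (L.symm (z - y)) = 0 ↔ z ∈ D := by
      rw [hz2.1, hLM, hzD]
    have hDs : ∀ᶠ z' in 𝓝 z, (z' ∈ D ↔ s (L.symm (z' - y)) = 0) := by
      filter_upwards [hz1, (hMt z).eventually hz4] with z' h2 h3
      rw [h2, h3.1, hLM]
    rw [hder z hz3]
    constructor
    · intro hzb
      have h0 : s (L.symm (z - y)) = 0 := h1.2 hzb.1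
      refine ⟨h0, ?_⟩
      by_contra hne
      refine hzb.2 ⟨fun z => s (L.symm (z - y)), AnalyticAt.fun_comp (g := s) hz3 (hMan z), h0, ?_, hDs⟩
      rw [hder z hz3]
      exact hne
    · rintro ⟨h0, hd⟩
      refine ⟨h1.1 h0, fun hg => ?_⟩
      have h2 := gd_comp L y hg
      have ha' : L.symm a = (0, 1) := by rw [← hL, ContinuousLinearEquiv.symm_apply_apply]
      rw [ha'] at h2
      refine hz2.2.2 h0 hd ?_
      obtain ⟨g, hg1, hg2, hg3, hg4⟩ := h2
      refine ⟨g, hg1, hg2, hg3, ?_⟩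
      have h3 : Tendsto (fun p => y + L p) (𝓝 (L.symm (z - y))) (𝓝 z) := by
        have h4 := (hLan (L.symm (z - y))).continuousAt.tendsto
        rwa [hLM] at h4
      filter_upwards [hg4, h3.eventually hz1] with p hp1 hp2
      rw [← hp1]
      exact hp2.symm
  · filter_upwards [hev, hMty.eventually hs.eventually_analyticAt.eventually_nhds] with z hz1 hz2 hz3
    have h1 := hz1.2.1 hz3
    have h3 : Tendsto (fun p => y + L p) (𝓝 (L.symm (z - y))) (𝓝 z) := by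
      have h4 := (hLan (L.symm (z - y))).continuousAt.tendsto
      rwa [hLM] at h4
    refine h3.frequently ((h1.and_eventually hz2).mono ?_)
    rintro p ⟨⟨hp1, hp2⟩, hp3⟩
    rw [hML]
    refine ⟨hp1, ?_⟩
    have h5 := hder (y + L p)
    rw [hML] at h5
    rw [h5 hp3]
    exact hp2

theorem few_bd {Γ Λ : AddSubgroup (Vd (k + 1))} {W : Fin r → Vd (k + 1) →L[ℂ] ℂ} {e : Vd (k + 1) → Vd (k + 1) → ℂ} (T : ThF Γ W e) (hΛ : Lat Λ) (hs : Simp Λ) (hle : Γ ≤ Λ) (hc : IsClosed D) (hi : ∀ y ∈ D, ∀ l ∈ Λ, y + l ∈ D)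
    (hD : ∀ y ∈ D, ∃ δ : Vd (k + 1) → ℂ, AnalyticAt ℂ δ y ∧ ∀ᶠ z in 𝓝 y, (z ∈ D ↔ δ z = 0)) (hL : LDi D) {a : Vd (k + 1)} (ha : a ≠ 0) : Few (Bd D a) a := by
  have h1 : CI (Bd D a) := ci_bd hD ha fun y _ => by
    filter_upwards [hL a ha y 0] with w hw
    rwa [add_comm (w • a) y] at hw
  refine few_sw T hΛ hs hle (bd_cl hc a) (bd_inv hi a) ?_ ha
  rcases k with _ | d
  · exact Or.inl (ci_one h1)
  · exact Or.inr ⟨d, rfl, sw_of_ci rfl h1⟩

theorem few_two {Γ Λ : AddSubgroup (Vd (k + 1))} {W : Fin r → Vd (k + 1) →L[ℂ] ℂ} {e : Vd (k + 1) → Vd (k + 1) → ℂ} (T : ThF Γ W e) (hΛ : Lat Λ) (hs : Simp Λ) (hle : Γ ≤ Λ) {f g : Vd (k + 1) → ℂ}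
    (hf : ∀ y, AnalyticAt ℂ f y) (hg : ∀ y, AnalyticAt ℂ g y) (hf0 : ∃ y, f y ≠ 0) (hi : ∀ y, f y = 0 → g y = 0 → ∀ l ∈ Λ, f (y + l) = 0 ∧ g (y + l) = 0)
    (hd : ∀ y, f y = 0 → ∃ᶠ z in 𝓝 y, f z = 0 ∧ g z ≠ 0) {a : Vd (k + 1)} (ha : a ≠ 0) : Few {y | f y = 0 ∧ g y = 0} a := by
  have h1 : CI {y | f y = 0 ∧ g y = 0} := by
    intro y hy
    refine ⟨f, g, hf y, hg y, ?_, Eventually.of_forall fun z => Iff.rfl, Eventually.of_forall fun z hz => hd z hz⟩
    by_contra hn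
    have h2 : ∀ᶠ z in 𝓝 y, f z = 0 := by
      rw [Filter.not_frequently] at hn
      filter_upwards [hn] with z hz
      exact not_not.1 hz
    obtain ⟨y₁, hy₁⟩ := hf0
    have h3 := AnalyticOnNhd.eqOn_zero_of_preconnected_of_eventuallyEq_zero (f := f) (U := Set.univ) (fun z _ => hf z) isPreconnected_univ (Set.mem_univ y) h2
    exact hy₁ (h3 (Set.mem_univ y₁))
  have hcf : Continuous f := continuous_iff_continuousAt.2 fun y => (hf y).continuousAt
  have hcg : Continuous g := continuous_iff_continuousAt.2 fun y => (hg y).continuousAt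
  have hcl : IsClosed {y | f y = 0 ∧ g y = 0} := (isClosed_eq hcf continuous_const).inter (isClosed_eq hcg continuous_const)
  refine few_sw T hΛ hs hle hcl (fun y hy l hl => hi y hy.1 hy.2 l hl) ?_ ha
  rcases k with _ | d
  · exact Or.inl (ci_one h1)
  · exact Or.inr ⟨d, rfl, sw_of_ci rfl h1⟩

end Pool.Agent.G4.RE
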