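import Pool.Agent.G4.RE.Defs
import Pool.Agent.G4.K.Rs

/-!
# G4 RE R2: a double zero splits

If `∂ₜ g (x, t) ≠ 0` then `g (x', ·)` is injective near `t` for `x'` near `x` (strict differentiability).  `exists_rsys` for `(x', w) ↦ s (x', t + w)` at `x` with a small radius: at `x' = x` all zeros are `0`, so `s (x, t + w) = w ^ n * h w`, `h 0 ≠ 0`, and
`n ≥ 2` by `h0`, `hd`; for `x'` near `x` with `c x' ≠ 0` the zeros `β x' 0`, `β x' 1` are different (otherwise the derivative is `0` there, against `h1`), and both are zeros of `g (x', t + ·)` (`hgs`).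
-/

set_option autoImplicit false

open Topology Filter Metric

namespace Pool.Agent.G4.RE

open Pool.Agent.G4.K (RSys)

variable {E : Type} [NormedAddCommGroup E] [NormedSpace ℂ E] [FiniteDimensional ℂ E]

/-- a double zero: the derivative vanishes -/
private theorem r2_dbl {F h : ℂ → ℂ} {n : ℕ} {b : Fin n → ℂ} {i j : Fin n} (hij : i ≠ j) (hb : b i = b j) (hh : DifferentiableAt ℂ h (b i)) (hF : ∀ᶠ w in 𝓝 (b i), F w = (∏ k, (w - b k)) * h w) :
    deriv F (b i) = 0 := by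
  have h1 : F =ᶠ[𝓝 (b i)] fun w => (w - b i) * ((w - b i) * ((∏ k ∈ (Finset.univ.erase i).erase j, (w - b k)) * h w)) := by
    filter_upwards [hF] with w hw
    rw [hw, ← Finset.mul_prod_erase Finset.univ (fun k => w - b k) (Finset.mem_univ i), ← Finset.mul_prod_erase (Finset.univ.erase i) (fun k => w - b k) (Finset.mem_erase.2 ⟨hij.symm, Finset.mem_univ j⟩), ← hb]
    ring
  rw [h1.deriv_eq]
  have h2 : DifferentiableAt ℂ (fun w => (w - b i) * ((∏ k ∈ (Finset.univ.erase i).erase j, (w - b k)) * h w)) (b i) := by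
    refine (differentiableAt_id.sub_const _).mul (DifferentiableAt.mul ?_ hh)
    refine DifferentiableAt.fun_finsetProd fun k _ => differentiableAt_id.sub_const _
  have h3 : HasDerivAt (fun w : ℂ => w - b i) 1 (b i) := (hasDerivAt_id _).sub_const _
  have h4 := (h3.mul h2.hasDerivAt).deriv
  refine h4.trans ?_
  simp

omit [FiniteDimensional ℂ E] in
/-- injectivity of `g (x', ·)` near `t` -/
private theorem r2_inj {g : E × ℂ → ℂ} {x : E} {t : ℂ} (hg : AnalyticAt ℂ g (x, t)) (hd : deriv (fun t => g (x, t)) t ≠ 0) :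
    ∃ η > 0, ∀ x' : E, ‖x' - x‖ < η → ∀ a b : ℂ, ‖a - t‖ < η → ‖b - t‖ < η → g (x', a) = 0 → g (x', b) = 0 → a = b := by
  have h1 : HasStrictFDerivAt g (fderiv ℂ g (x, t)) (x, t) := hg.hasStrictFDerivAt
  have h2 : deriv (fun t => g (x, t)) t = fderiv ℂ g (x, t) (0, 1) := by
    have h3 : HasDerivAt (fun t : ℂ => (x, t)) ((0 : E), (1 : ℂ)) t := (hasDerivAt_const t x).prodMk (hasDerivAt_id t)
    exact (h1.hasFDerivAt.comp_hasDerivAt t h3).deriv
  rw [h2] at hd
  have h3 : 0 < ‖fderiv ℂ g (x, t) (0, 1)‖ := norm_pos_iff.2 hd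
  have h4 := h1.isLittleO.def (half_pos h3)
  rw [nhds_prod_eq] at h4
  obtain ⟨U, hU, h5⟩ := (Filter.eventually_prod_self_iff (r := fun p q : E × ℂ => ‖g p - g q - (fderiv ℂ g (x, t)) (p - q)‖ ≤ ‖fderiv ℂ g (x, t) (0, 1)‖ / 2 * ‖p - q‖)).1 h4
  obtain ⟨η, hη, h6⟩ := Metric.mem_nhds_iff.1 hU
  refine ⟨η, hη, fun x' hx' a b ha hb e1 e2 => ?_⟩
  have h7 : ∀ c : ℂ, ‖c - t‖ < η → ((x', c) : E × ℂ) ∈ U := fun c hc => h6 (by
    rw [mem_ball, Prod.dist_eq, max_lt_iff, dist_eq_norm, dist_eq_norm]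
    exact ⟨hx', hc⟩)
  have h8 := h5 (x', a) (h7 a ha) (x', b) (h7 b hb)
  have h9 : ((x', a) : E × ℂ) - (x', b) = (a - b) • ((0 : E), (1 : ℂ)) := by
    simp
  rw [e1, e2, h9, map_smul, sub_zero, zero_sub, norm_neg, norm_smul, norm_smul] at h8
  have h10 : ‖((0 : E), (1 : ℂ))‖ = 1 := by
    rw [Prod.norm_def]
    simp
  rw [h10, mul_one] at h8
  by_contra h11
  have h12 : 0 < ‖a - b‖ := norm_pos_iff.2 (sub_ne_zero.2 h11)
  nlinarith

/-- a double zero splits -/
theorem rd_two {s g : E × ℂ → ℂ} {c : E → ℂ} {x : E} {t : ℂ} (hs : AnalyticAt ℂ s (x, t)) (h0 : s (x, t) = 0) (hz : ∀ᶠ t' in 𝓝[≠] t, s (x, t') ≠ 0) (hc : ∃ᶠ x' in 𝓝 x, c x' ≠ 0)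
    (h1 : ∀ᶠ p : E × ℂ in 𝓝 (x, t), c p.1 ≠ 0 → s p = 0 → deriv (fun t => s (p.1, t)) p.2 ≠ 0) (hd : deriv (fun t => s (x, t)) t = 0) (hg : AnalyticAt ℂ g (x, t)) (hgs : ∀ᶠ p in 𝓝 (x, t), (g p = 0 ↔ s p = 0)) :
    deriv (fun t => g (x, t)) t = 0 := by
  by_contra hgd
  obtain ⟨η₁, hη₁, k1⟩ := r2_inj hg hgd
  obtain ⟨η₂, hη₂, k2⟩ := Metric.eventually_nhds_iff.1 (hs.eventually_analyticAt.and (h1.and hgs))
  rw [eventually_nhdsWithin_iff, Metric.eventually_nhds_iff] at hz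
  obtain ⟨η₃, hη₃, k3⟩ := hz
  set η : ℝ := min (min η₁ η₂) η₃ with hη
  have hη0 : 0 < η := lt_min (lt_min hη₁ hη₂) hη₃
  have m1 : η ≤ η₁ := (min_le_left _ _).trans (min_le_left _ _)
  have m2 : η ≤ η₂ := (min_le_left _ _).trans (min_le_right _ _)
  have m3 : η ≤ η₃ := min_le_right _ _
  have hr : 0 < η / 2 := by linarith
  have hdist : ∀ x' : E, ‖x' - x‖ < η → ∀ w : ℂ, ‖w‖ < η → dist ((x', t + w) : E × ℂ) (x, t) < η₂ := by
    intro x' hx' w hw
    rw [Prod.dist_eq, max_lt_iff, dist_eq_norm, dist_eq_norm]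
    exact ⟨hx'.trans_le m2, by simpa using hw.trans_le m2⟩
  have hxx : ‖x - x‖ < η := by simpa using hη0
  obtain ⟨δ, n, β, hδ, R⟩ := Pool.Agent.G4.K.exists_rsys (σ := fun y : E × ℂ => s (y.1, t + y.2)) (x₀ := x) hr
    (fun w hw => by
      have h2 : AnalyticAt ℂ s (x, t + w) := (k2 (hdist x hxx w (by linarith))).1
      have h3 : AnalyticAt ℂ (fun y : E × ℂ => ((y.1, t + y.2) : E × ℂ)) (x, w) := analyticAt_fst.prod (analyticAt_const.add analyticAt_snd)
      exact AnalyticAt.fun_comp (g := s) (f := fun y : E × ℂ => ((y.1, t + y.2) : E × ℂ)) h2 h3)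
    (fun w hw => k3 (by rw [dist_eq_norm, add_sub_cancel_left, hw]; linarith) (by
      intro h5
      have h6 : w = 0 := by
        have h7 : t + w = t := h5
        simpa using h7
      rw [h6, norm_zero] at hw
      exact hr.ne hw))
  have hzero : ∀ x' ∈ ball x δ, ∀ i, s (x', t + β x' i) = 0 := fun x' hx' i => (R.iff hx' (R.lt x' hx' i).le).2 ⟨i, rfl⟩
  have hshift : ∀ (x' : E) (w : ℂ), deriv (fun w => s (x', t + w)) w = deriv (fun t => s (x', t)) (t + w) := fun x' w => by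
    rw [← deriv_comp_const_add]
  have hx : x ∈ ball x δ := mem_ball_self hδ
  -- at `x` all the zeros are `0`
  have hb0 : ∀ i, β x i = 0 := by
    intro i
    by_contra h2
    refine k3 (y := t + β x i) ?_ ?_ (hzero x hx i)
    · rw [dist_eq_norm, add_sub_cancel_left]
      have := R.lt x hx i
      linarith
    · simpa using h2
  obtain ⟨h, f1, f2⟩ := R.fac x hx
  have hn : 2 ≤ n := by
    by_contra h2
    have h3 : n = 0 ∨ n = 1 := by omega
    rcases h3 with h3 | h3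
    · subst h3
      have h4 := f2 0 (by simpa using hr.le)
      simp only [Finset.univ_eq_empty, Finset.prod_empty, one_mul, add_zero] at h4
      exact (f1 0 (by simpa using hr.le)).2 (h4.symm.trans h0)
    · subst h3
      have h4 : (fun w => s (x, t + w)) =ᶠ[𝓝 0] fun w => w * h w := by
        filter_upwards [ball_mem_nhds (0 : ℂ) hr] with w hw
        have h5 := f2 w (mem_ball_zero_iff.1 hw).le
        simp only [Fin.prod_univ_one, hb0, sub_zero] at h5
        exact h5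
      have h6 := h4.deriv_eq
      rw [hshift, add_zero, hd] at h6
      have h7 : HasDerivAt (fun w : ℂ => w * h w) (1 * h 0 + 0 * deriv h 0) 0 :=
        (hasDerivAt_id (0 : ℂ)).mul (f1 0 (by simpa using hr.le)).1.differentiableAt.hasDerivAt
      rw [h7.deriv, one_mul, zero_mul, add_zero] at h6
      exact (f1 0 (by simpa using hr.le)).2 h6.symm
  -- a near point with `c x' ≠ 0`
  obtain ⟨x', hcx, hx'⟩ := (hc.and_eventually (ball_mem_nhds x (lt_min hδ hη0))).exists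
  have hxδ : x' ∈ ball x δ := ball_subset_ball (min_le_left _ _) hx'
  have hxη : ‖x' - x‖ < η := by
    rw [← dist_eq_norm]
    exact (mem_ball.1 hx').trans_le (min_le_right _ _)
  have hlt : ∀ i, ‖β x' i‖ < η := fun i => by
    have := R.lt x' hxδ i
    linarith
  have hgz : ∀ i, g (x', t + β x' i) = 0 := fun i => ((k2 (hdist x' hxη _ (hlt i))).2.2).2 (hzero x' hxδ i)
  set i₀ : Fin n := ⟨0, by omega⟩ with hi₀
  set i₁ : Fin n := ⟨1, by omega⟩ with hi₁
  have hne : i₀ ≠ i₁ := by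
    rw [hi₀, hi₁]
    simp
  have heq : β x' i₀ = β x' i₁ := by
    have h2 := k1 x' (hxη.trans_le m1) (t + β x' i₀) (t + β x' i₁) (by rw [add_sub_cancel_left]; exact (hlt _).trans_le m1) (by rw [add_sub_cancel_left]; exact (hlt _).trans_le m1) (hgz _) (hgz _)
    exact add_left_cancel h2
  obtain ⟨h', f1', f2'⟩ := R.fac x' hxδ
  have h2 : deriv (fun w => s (x', t + w)) (β x' i₀) = 0 := by
    refine r2_dbl hne heq (f1' _ (R.lt x' hxδ i₀).le).1.differentiableAt ?_
    filter_upwards [isOpen_ball.mem_nhds (mem_ball_zero_iff.2 (R.lt x' hxδ i₀))] with w hw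
    exact f2' w (mem_ball_zero_iff.1 hw).le
  rw [hshift] at h2
  exact (k2 (hdist x' hxη _ (hlt i₀))).2.1 hcx (hzero x' hxδ i₀) h2

end Pool.Agent.G4.RE
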