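import Pool.Agent.G4.RE.Rx
import Pool.Agent.G4.RE.R2
import Pool.Agent.G4.K.Hz

/-!
# G4 RE Rd: the reduced equation, in coordinates

If `s (x, t) = 0` there are `x'` near `x` with `c x' ≠ 0`, and `t'` near `t` with `s (x', t') = 0` (`K.hz`); the zeros of `s (x', ·)` are simple.
-/

set_option autoImplicit false

open Topology Filter Metric

namespace Pool.Agent.G4.RE

open Pool.Agent.G4.K (RSys)

variable {E : Type} [NormedAddCommGroup E] [NormedSpace ℂ E] [FiniteDimensional ℂ E]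

private theorem der_eq {s : E × ℂ → ℂ} {p : E × ℂ} (hs : AnalyticAt ℂ s p) : fderiv ℂ s p (0, 1) = deriv (fun t => s (p.1, t)) p.2 := by
  have h1 : HasDerivAt (fun t : ℂ => ((p.1, t) : E × ℂ)) ((0 : E), (1 : ℂ)) p.2 := (hasDerivAt_const p.2 p.1).prodMk (hasDerivAt_id p.2)
  have h2 : HasFDerivAt s (fderiv ℂ s p) (p.1, p.2) := hs.differentiableAt.hasFDerivAt
  exact (h2.comp_hasDerivAt p.2 h1).deriv.symm

theorem red {f : E × ℂ → ℂ} (hf : AnalyticAt ℂ f (0, 0)) (hl : ∀ᶠ w in 𝓝[≠] (0 : ℂ), f (0, w) ≠ 0) :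
    ∃ s : E × ℂ → ℂ, AnalyticAt ℂ s (0, 0) ∧ ∀ᶠ p in 𝓝 (0 : E × ℂ), (s p = 0 ↔ f p = 0) ∧ (s p = 0 → ∃ᶠ p' in 𝓝 p, s p' = 0 ∧ fderiv ℂ s p' (0, 1) ≠ 0) ∧
      (s p = 0 → fderiv ℂ s p (0, 1) = 0 → ¬ Gd {p | f p = 0} p (0, 1)) := by
  obtain ⟨δ, r, c, s, hδ, hr, hc, hs, hsf, hiso, hsimp⟩ := rd_ex hf hl
  refine ⟨s, hs 0 (mem_ball_self hδ) 0, ?_⟩
  have hU : IsOpen (ball (0 : E) δ ×ˢ ball (0 : ℂ) r) := isOpen_ball.prod isOpen_ball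
  have hmem : (0 : E × ℂ) ∈ ball (0 : E) δ ×ˢ ball (0 : ℂ) r := ⟨mem_ball_self hδ, mem_ball_self hr⟩
  filter_upwards [hU.mem_nhds hmem] with p hp
  obtain ⟨hpx, hpt⟩ := hp
  have hpt' : ‖p.2‖ < r := mem_ball_zero_iff.1 hpt
  have hball : ∀ᶠ p' : E × ℂ in 𝓝 p, p'.1 ∈ ball (0 : E) δ ∧ ‖p'.2‖ < r := by
    filter_upwards [hU.mem_nhds (show p ∈ ball (0 : E) δ ×ˢ ball (0 : ℂ) r from ⟨hpx, hpt⟩)] with p' hp'
    exact ⟨hp'.1, mem_ball_zero_iff.1 hp'.2⟩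
  refine ⟨hsf p.1 hpx p.2 hpt', fun h0 => ?_, fun h0 hd hg => ?_⟩
  · -- density
    rw [frequently_iff]
    intro W hW
    obtain ⟨ε, hε, hεW⟩ := Metric.mem_nhds_iff.1 hW
    have h1 := K.hz (f := s) (x₀ := p.1) (w₀ := p.2) (hs p.1 hpx p.2) h0 (hiso p.1 hpx p.2) hε
    have h2 : ∀ᶠ x in 𝓝 p.1, x ∈ ball (0 : E) δ := isOpen_ball.mem_nhds hpx
    have h3 : ∀ᶠ x in 𝓝 p.1, x ∈ ball p.1 ε := ball_mem_nhds _ hε
    obtain ⟨x, hcx, ⟨w, hw1, hw2⟩, hx1, hx2⟩ := ((hc p.1 hpx).2.and_eventually (h1.and (h2.and h3))).exists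
    refine ⟨(x, w), hεW ?_, hw2, ?_⟩
    · rw [← ball_prod_same]
      exact ⟨hx2, by rw [mem_ball, dist_eq_norm]; exact hw1⟩
    · rw [der_eq (hs x hx1 w)]
      exact hsimp x hx1 hcx w hw2
  · obtain ⟨g, hg1, hg2, hg3, hg4⟩ := hg
    rw [der_eq hg1] at hg3
    refine hg3 ?_
    rw [der_eq (hs p.1 hpx p.2)] at hd
    refine rd_two (s := s) (c := c) (x := p.1) (t := p.2) (hs p.1 hpx p.2) h0 (hiso p.1 hpx p.2) (hc p.1 hpx).2 ?_ hd hg1 ?_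
    · filter_upwards [hball] with p' hp' h1 h2
      exact hsimp p'.1 hp'.1 h1 p'.2 h2
    · filter_upwards [hg4, hball] with p' h1 h2
      exact h1.symm.trans (hsf p'.1 h2.1 p'.2 h2.2).symm

end Pool.Agent.G4.RE
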