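import Pool.Agent.H22.HF.Par

/-!
# G4 RE Riem: a quotient which is bounded is holomorphic

Let `x₁` near `x₀` with `c x₁ ≠ 0`, `v = x₁ - x₀`: `z ↦ c (x₀ + z v)` is not `0` near `z = 0` (identity theorem on a disc), so it is not `0` on a small circle `‖z‖ = ρ`, and then `c (x + z v) ≠ 0` there for all `x` near `x₀`.
`s (x, t) = (2 π i)⁻¹ ∮ N (x + z v, t) / c (x + z v) dz / z`, analytic (`H22.HF.analyticAt_circleIntegral`).  If `c x ≠ 0`: `z ↦ N (x + z v, t) / c (x + z v)` is bounded and holomorphic on the disc off finitely many points `≠ 0`, so it extends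
(`Complex.differentiableOn_update_limUnder_of_bddAbove`, near each of the points), and `s (x, t) = N (x, t) / c x` by Cauchy.  If `c x = 0` both sides are `0` (`hb`).
-/

set_option autoImplicit false

open Topology Filter Metric

namespace Pool.Agent.G4.RE

/-- Cauchy's formula at the centre for a bounded quotient. -/
private theorem riem_disc {f g : ℂ → ℂ} {ρ K : ℝ} (hρ : 0 < ρ) (hf : ∀ z ∈ closedBall (0 : ℂ) ρ, AnalyticAt ℂ f z) (hg : ∀ z ∈ closedBall (0 : ℂ) ρ, AnalyticAt ℂ g z)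
    (h0 : ∀ z ∈ sphere (0 : ℂ) ρ, g z ≠ 0) (hb : ∀ᶠ z in 𝓝ˢ (closedBall (0 : ℂ) ρ), ‖f z‖ ≤ K * ‖g z‖) (hg0 : g 0 ≠ 0) :
    (∮ z in C(0, ρ), (f z / g z) / z) = 2 * Real.pi * Complex.I * (f 0 / g 0) := by
  classical
  have hne : ∀ z ∈ closedBall (0 : ℂ) ρ, ∀ᶠ w in 𝓝[≠] z, g w ≠ 0 := by
    intro z hz
    rcases (hg z hz).eventually_eq_zero_or_eventually_ne_zero with h | h
    · exfalso
      have h1 := AnalyticOnNhd.eqOn_zero_of_preconnected_of_eventuallyEq_zero (f := g) (U := closedBall (0 : ℂ) ρ) hg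
        (convex_closedBall (0 : ℂ) ρ).isPreconnected hz h
      exact hg0 (h1 (mem_closedBall_self hρ.le))
    · exact h
  set q : ℂ → ℂ := fun z => f z / g z with hq
  set G : ℂ → ℂ := fun z => if g z = 0 then limUnder (𝓝[≠] z) q else q z with hG
  have hGd : ∀ z ∈ closedBall (0 : ℂ) ρ, DifferentiableAt ℂ G z := by
    intro z hz
    have hfz : ∀ᶠ w in 𝓝 z, AnalyticAt ℂ f w := (hf z hz).eventually_analyticAt
    have hgz : ∀ᶠ w in 𝓝 z, AnalyticAt ℂ g w := (hg z hz).eventually_analyticAt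
    by_cases hz0 : g z = 0
    · have hbz : ∀ᶠ w in 𝓝 z, ‖f w‖ ≤ K * ‖g w‖ := (eventually_nhdsSet_iff_forall.1 hb) z hz
      have h1 : ∀ᶠ w in 𝓝 z, w ≠ z → g w ≠ 0 := eventually_nhdsWithin_iff.1 (hne z hz)
      obtain ⟨ε, hε, h2⟩ := Metric.eventually_nhds_iff_ball.1 (((hfz.and hgz).and hbz).and h1)
      have hd : DifferentiableOn ℂ q (ball z ε \ {z}) := by
        intro w hw
        have h3 := h2 w hw.1
        exact (h3.1.1.1.differentiableAt.div h3.1.1.2.differentiableAt (h3.2 hw.2)).differentiableWithinAt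
      have hbd : BddAbove (norm ∘ q '' (ball z ε \ {z})) := by
        refine ⟨K, ?_⟩
        rintro _ ⟨w, hw, rfl⟩
        have h3 := h2 w hw.1
        have h4 : 0 < ‖g w‖ := norm_pos_iff.2 (h3.2 hw.2)
        simp only [Function.comp, hq, norm_div]
        rw [div_le_iff₀ h4]
        exact h3.1.2
      have h5 := Complex.differentiableOn_update_limUnder_of_bddAbove (ball_mem_nhds z hε) hd hbd
      have h6 : DifferentiableAt ℂ (Function.update q z (limUnder (𝓝[≠] z) q)) z :=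
        h5.differentiableAt (ball_mem_nhds z hε)
      refine h6.congr_of_eventuallyEq ?_
      filter_upwards [ball_mem_nhds z hε] with w hw
      by_cases hwz : w = z
      · subst hwz
        rw [Function.update_self]
        simp only [hG, if_pos hz0]
      · rw [Function.update_of_ne hwz]
        simp only [hG, if_neg ((h2 w hw).2 hwz)]
    · have h1 : ∀ᶠ w in 𝓝 z, g w ≠ 0 := (hg z hz).continuousAt.eventually_ne hz0
      have h2 : DifferentiableAt ℂ q z := (hf z hz).differentiableAt.div (hg z hz).differentiableAt hz0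
      refine h2.congr_of_eventuallyEq ?_
      filter_upwards [h1] with w hw
      simp only [hG, if_neg hw]
  have hdc : DiffContOnCl ℂ G (ball 0 ρ) := by
    refine DifferentiableOn.diffContOnCl ?_
    rw [closure_ball _ hρ.ne']
    exact fun z hz => (hGd z hz).differentiableWithinAt
  have h1 := hdc.circleIntegral_sub_inv_smul (mem_ball_self hρ)
  have h2 : (∮ z in C(0, ρ), (f z / g z) / z) = ∮ z in C(0, ρ), (z - 0)⁻¹ • G z := by
    refine circleIntegral.integral_congr hρ.le ?_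
    intro z hz
    have h3 := h0 z hz
    simp only [hG, if_neg h3, hq, sub_zero, smul_eq_mul]
    rw [div_eq_mul_inv (f z / g z) z, mul_comm]
  rw [h2, h1, smul_eq_mul]
  simp only [hG, if_neg hg0, hq]

variable {E : Type} [NormedAddCommGroup E] [NormedSpace ℂ E] [FiniteDimensional ℂ E]

theorem riem {c : E → ℂ} {N : E × ℂ → ℂ} {U : Set E} (hU : IsOpen U) {x₀ : E} (hx : x₀ ∈ U) (hc : ∀ x ∈ U, AnalyticAt ℂ c x) (hN : ∀ x ∈ U, ∀ t : ℂ, AnalyticAt ℂ N (x, t)) (hne : ∃ᶠ x in 𝓝 x₀, c x ≠ 0) {C : ℂ → ℝ}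
    (hb : ∀ x ∈ U, ∀ t : ℂ, ‖N (x, t)‖ ≤ C t * ‖c x‖) : ∃ δ : ℝ, 0 < δ ∧ ball x₀ δ ⊆ U ∧ ∃ s : E × ℂ → ℂ, ∀ x ∈ ball x₀ δ, ∀ t : ℂ, AnalyticAt ℂ s (x, t) ∧ s (x, t) * c x = N (x, t) := by
  classical
  obtain ⟨R, hR, hRU⟩ := Metric.isOpen_iff.1 hU x₀ hx
  obtain ⟨x₁, hx₁c, hx₁⟩ : ∃ x₁, c x₁ ≠ 0 ∧ x₁ ∈ ball x₀ (R / 2) :=
    (hne.and_eventually (ball_mem_nhds x₀ (half_pos hR))).exists
  obtain ⟨v, hv⟩ : ∃ v : E, v = x₁ - x₀ := ⟨_, rfl⟩
  have hvn : ‖v‖ < R / 2 := by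
    rw [hv, ← dist_eq_norm]
    exact hx₁
  have hmem : ∀ x ∈ ball x₀ (R / 2), ∀ z : ℂ, ‖z‖ ≤ 1 → x + z • v ∈ U := by
    intro x hx z hz
    refine hRU ?_
    rw [mem_ball, dist_eq_norm] at hx ⊢
    have h1 : x + z • v - x₀ = (x - x₀) + z • v := by abel
    rw [h1]
    have h2 : ‖z • v‖ ≤ ‖v‖ := by
      rw [norm_smul]
      exact mul_le_of_le_one_left (norm_nonneg _) hz
    linarith [norm_add_le (x - x₀) (z • v)]
  have hx₀ : x₀ ∈ ball x₀ (R / 2) := mem_ball_self (half_pos hR)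
  have hlin : ∀ x : E, ∀ z : ℂ, AnalyticAt ℂ (fun w : ℂ => x + w • v) z := by
    intro x z
    fun_prop
  have hline : ∀ x : E, ∀ z : ℂ, x + z • v ∈ U → AnalyticAt ℂ (fun w : ℂ => c (x + w • v)) z := by
    intro x z h
    exact (hc _ h).fun_comp_of_eq (hlin x z) rfl
  have h0 : ∀ᶠ z in 𝓝[≠] (0 : ℂ), c (x₀ + z • v) ≠ 0 := by
    have h00 : x₀ + (0 : ℂ) • v ∈ U := hmem x₀ hx₀ 0 (by simp)
    rcases (hline x₀ 0 h00).eventually_eq_zero_or_eventually_ne_zero with h | h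
    · exfalso
      have h1 := AnalyticOnNhd.eqOn_zero_of_preconnected_of_eventuallyEq_zero (f := fun w : ℂ => c (x₀ + w • v))
        (U := closedBall (0 : ℂ) 1) (fun z hz => hline x₀ z (hmem x₀ hx₀ z (by simpa using hz)))
        (convex_closedBall (0 : ℂ) 1).isPreconnected (mem_closedBall_self zero_le_one) h
      have h2 : (1 : ℂ) ∈ closedBall (0 : ℂ) 1 := by simp
      have h3 := h1 h2
      simp only [one_smul, Pi.zero_apply] at h3
      refine hx₁c ?_
      rw [← h3, hv]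
      congr 1
      abel
    · exact h
  obtain ⟨ρ, hρ0, hρ1, hρ⟩ : ∃ ρ : ℝ, 0 < ρ ∧ ρ ≤ 1 ∧ ∀ z ∈ sphere (0 : ℂ) ρ, c (x₀ + z • v) ≠ 0 := by
    have h1 : ∀ᶠ z in 𝓝 (0 : ℂ), z ≠ 0 → c (x₀ + z • v) ≠ 0 := eventually_nhdsWithin_iff.1 h0
    obtain ⟨ε, hε, h2⟩ := Metric.eventually_nhds_iff_ball.1 h1
    have h3 : 0 < min (ε / 2) 1 := lt_min (half_pos hε) one_pos
    refine ⟨min (ε / 2) 1, h3, min_le_right _ _, fun z hz => ?_⟩
    have hz' : ‖z‖ = min (ε / 2) 1 := by simpa using hz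
    refine h2 z ?_ ?_
    · rw [mem_ball_zero_iff, hz']
      exact lt_of_le_of_lt (min_le_left _ _) (half_lt_self hε)
    · intro h4
      rw [h4, norm_zero] at hz'
      linarith
  have hball : ∀ z ∈ closedBall (0 : ℂ) ρ, ‖z‖ ≤ 1 := by
    intro z hz
    have h1 : ‖z‖ ≤ ρ := by simpa using hz
    linarith
  obtain ⟨δ, hδ0, hδR, hδ⟩ : ∃ δ : ℝ, 0 < δ ∧ δ ≤ R / 2 ∧ ∀ x ∈ ball x₀ δ, ∀ z ∈ sphere (0 : ℂ) ρ, c (x + z • v) ≠ 0 := by
    have h1 : ∀ᶠ x in 𝓝 x₀, ∀ z ∈ sphere (0 : ℂ) ρ, c (x + z • v) ≠ 0 := by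
      refine IsCompact.eventually_forall_of_forall_eventually (isCompact_sphere (0 : ℂ) ρ) ?_
      intro z hz
      have h2 : ContinuousAt (fun p : E × ℂ => c (p.1 + p.2 • v)) (x₀, z) := by
        have h3 : ContinuousAt c (x₀ + z • v) := (hc _ (hmem x₀ hx₀ z (hball z (sphere_subset_closedBall hz)))).continuousAt
        have h4 : ContinuousAt (fun p : E × ℂ => p.1 + p.2 • v) (x₀, z) := by fun_prop
        exact ContinuousAt.comp (f := fun p : E × ℂ => p.1 + p.2 • v) (g := c) h3 h4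
      exact h2.eventually_ne (hρ z hz)
    obtain ⟨ε, hε, h2⟩ := Metric.eventually_nhds_iff_ball.1 h1
    refine ⟨min ε (R / 2), lt_min hε (half_pos hR), min_le_right _ _, fun x hx z hz => ?_⟩
    exact h2 x (ball_subset_ball (min_le_left _ _) hx) z hz
  have hsub : ball x₀ δ ⊆ ball x₀ (R / 2) := ball_subset_ball hδR
  refine ⟨δ, hδ0, hsub.trans ((ball_subset_ball (by linarith)).trans hRU),
    fun p => (2 * Real.pi * Complex.I)⁻¹ * ∮ z in C(0, ρ), (N (p.1 + z • v, p.2) / c (p.1 + z • v)) / z, ?_⟩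
  intro x hx t
  have hx' : x ∈ ball x₀ (R / 2) := hsub hx
  have hxU : x ∈ U := by
    have h1 := hmem x hx' 0 (by simp)
    simpa using h1
  constructor
  · refine analyticAt_const.mul ?_
    refine H22.HF.analyticAt_circleIntegral
      (F := fun p : (E × ℂ) × ℂ => (N (p.1.1 + p.2 • v, p.1.2) / c (p.1.1 + p.2 • v)) / p.2) hρ0 ?_
    intro z hz
    have hz1 : ‖z‖ ≤ 1 := hball z (sphere_subset_closedBall hz)
    have hz0 : z ≠ 0 := by
      intro h
      have h1 : ‖z‖ = ρ := by simpa using hz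
      rw [h, norm_zero] at h1
      linarith
    have h5 : AnalyticAt ℂ (fun p : (E × ℂ) × ℂ => p.2) ((x, t), z) := analyticAt_snd
    have h6 : AnalyticAt ℂ (fun p : (E × ℂ) × ℂ => p.1.1) ((x, t), z) :=
      analyticAt_fst.fun_comp_of_eq (g := fun p : E × ℂ => p.1) (y := (x, t)) analyticAt_fst rfl
    have h7 : AnalyticAt ℂ (fun p : (E × ℂ) × ℂ => p.1.2) ((x, t), z) :=
      analyticAt_snd.fun_comp_of_eq (g := fun p : E × ℂ => p.2) (y := (x, t)) analyticAt_fst rfl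
    have h1 : AnalyticAt ℂ (fun p : (E × ℂ) × ℂ => p.1.1 + p.2 • v) ((x, t), z) := h6.add (h5.smul analyticAt_const)
    have h2 : AnalyticAt ℂ (fun p : (E × ℂ) × ℂ => (p.1.1 + p.2 • v, p.1.2)) ((x, t), z) := h1.prod h7
    have h3 : AnalyticAt ℂ (fun p : (E × ℂ) × ℂ => N (p.1.1 + p.2 • v, p.1.2)) ((x, t), z) :=
      (hN _ (hmem x hx' z hz1) t).fun_comp_of_eq h2 rfl
    have h4 : AnalyticAt ℂ (fun p : (E × ℂ) × ℂ => c (p.1.1 + p.2 • v)) ((x, t), z) :=
      (hc _ (hmem x hx' z hz1)).fun_comp_of_eq h1 rfl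
    exact (h3.div h4 (hδ x hx z hz)).div h5 hz0
  · by_cases hcx : c x = 0
    · have h1 := hb x hxU t
      rw [hcx, norm_zero, mul_zero] at h1
      rw [hcx, mul_zero, eq_comm, ← norm_eq_zero]
      exact le_antisymm h1 (norm_nonneg _)
    · have hfz : ∀ z ∈ closedBall (0 : ℂ) ρ, AnalyticAt ℂ (fun z => N (x + z • v, t)) z := by
        intro z hz
        have h2 : AnalyticAt ℂ (fun w : ℂ => (x + w • v, t)) z := by fun_prop
        exact (hN _ (hmem x hx' z (hball z hz)) t).fun_comp_of_eq h2 rfl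
      have hgz : ∀ z ∈ closedBall (0 : ℂ) ρ, AnalyticAt ℂ (fun z => c (x + z • v)) z :=
        fun z hz => hline x z (hmem x hx' z (hball z hz))
      have h1 := riem_disc (f := fun z => N (x + z • v, t)) (g := fun z => c (x + z • v)) (K := C t) hρ0 hfz hgz
        (fun z hz => hδ x hx z hz) ?_ (by simpa using hcx)
      · simp only [zero_smul, add_zero] at h1
        show (2 * Real.pi * Complex.I)⁻¹ * (∮ z in C(0, ρ), (N (x + z • v, t) / c (x + z • v)) / z) * c x = N (x, t)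
        rw [h1]
        have hpi : (2 * Real.pi * Complex.I : ℂ) ≠ 0 := Complex.two_pi_I_ne_zero
        field_simp
      · rw [eventually_nhdsSet_iff_forall]
        intro z hz
        have h2 : ContinuousAt (fun w : ℂ => x + w • v) z := (hlin x z).continuousAt
        have h3 : ∀ᶠ w in 𝓝 z, x + w • v ∈ U := h2.eventually_mem (hU.mem_nhds (hmem x hx' z (hball z hz)))
        filter_upwards [h3] with w hw
        exact hb _ hw t

end Pool.Agent.G4.RE
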