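import Pool.Agent.G4.RE.Alg
import Pool.Agent.G4.RE.Sym
import Pool.Agent.G4.RE.Riem
import Pool.Agent.G4.K.Rs

/-!
# G4 RE Rx: existence of the reduced equation, in coordinates

`exists_rsys` for `f` at `0` (a small radius `r`): roots `β x i`, `x ∈ U = ball 0 δ₀`; `q` the maximal number of different roots over `U`; `c x = sc q (β x)`, `N (x, t) = sd q (β x) t`: `c` is not `0` near any point of `U` (`sc_ne`, identity theorem on
the ball), and `‖N (x, t)‖ ≤ (‖t‖ + r) ^ q * ‖c x‖` (`sd_eq`, `img_le`, `sc_zero`, `sd_zero`).  `s` from `riem` at `0`: `s (x, t) = ∏ v, (t - v)` (different roots) if `c x ≠ 0`.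
`s (x, t) = 0` iff `∏ i, (t - β x i) = 0` for all `x` near `0` and all `t`: `‖∏ i, (t - β x i)‖ ≤ C ‖s (x, t)‖`, `‖s (x, t)‖ ^ n ≤ C ‖∏ i, (t - β x i)‖` by `img_le` if `c x ≠ 0`, in general by continuity in `x` (`pr_an`); so `s (x, ·)` has finitely
many zeros, and for `‖t‖ < r` they are the zeros of `f (x, ·)` (`RSys.iff`).
-/

set_option autoImplicit false

open Topology Filter Metric

namespace Pool.Agent.G4.RE

open Pool.Agent.G4.K (RSys)

variable {E : Type} [NormedAddCommGroup E] [NormedSpace ℂ E] [FiniteDimensional ℂ E]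

omit [FiniteDimensional ℂ E] in
/-- a radius -/
private theorem rx_rad {f : E × ℂ → ℂ} (hf : AnalyticAt ℂ f (0, 0)) (hl : ∀ᶠ w in 𝓝[≠] (0 : ℂ), f (0, w) ≠ 0) :
    ∃ r : ℝ, 0 < r ∧ (∀ w : ℂ, ‖w‖ ≤ r → AnalyticAt ℂ f (0, w)) ∧ ∀ w : ℂ, ‖w‖ = r → f (0, w) ≠ 0 := by
  have h1 : ∀ᶠ w : ℂ in 𝓝 0, AnalyticAt ℂ f (0, w) := by
    have h2 : Tendsto (fun w : ℂ => ((0 : E), w)) (𝓝 0) (𝓝 (0, 0)) := (Continuous.prodMk_right (0 : E)).continuousAt
    exact h2.eventually hf.eventually_analyticAt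
  have h2 : ∀ᶠ w : ℂ in 𝓝 0, w ≠ 0 → f (0, w) ≠ 0 := eventually_nhdsWithin_iff.1 hl
  obtain ⟨ε, hε, h3⟩ := Metric.eventually_nhds_iff_ball.1 (h1.and h2)
  have h4 : ∀ w : ℂ, ‖w‖ ≤ ε / 2 → w ∈ ball (0 : ℂ) ε := fun w hw => by
    rw [mem_ball_zero_iff]
    linarith
  refine ⟨ε / 2, by positivity, fun w hw => (h3 w (h4 w hw)).1, fun w hw => (h3 w (h4 w hw.le)).2 ?_⟩
  intro h5
  rw [h5, norm_zero] at hw
  linarith

/-- simple zeros -/
private theorem rx_deriv {S : Finset ℂ} {g : ℂ → ℂ} (hg : ∀ t, g t = ∏ v ∈ S, (t - v)) {t : ℂ} (ht : g t = 0) : deriv g t ≠ 0 := by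
  have h0 : t ∈ S := by
    rw [hg, Finset.prod_eq_zero_iff] at ht
    obtain ⟨v, hv, h1⟩ := ht
    rw [sub_eq_zero.1 h1]
    exact hv
  have h1 : g = fun t' => (t' - t) * ∏ v ∈ S.erase t, (t' - v) := by
    funext t'
    rw [hg]
    exact (Finset.mul_prod_erase S (fun v => t' - v) h0).symm
  have h2 : DifferentiableAt ℂ (fun t' : ℂ => ∏ v ∈ S.erase t, (t' - v)) t := by
    have h3 : ∀ v ∈ S.erase t, DifferentiableAt ℂ (fun t' : ℂ => t' - v) t := fun v _ => differentiableAt_id.sub_const v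
    exact DifferentiableAt.fun_finsetProd h3
  have h3 := ((hasDerivAt_id t).sub_const t).mul h2.hasDerivAt
  have h4 : deriv g t = ∏ v ∈ S.erase t, (t - v) := by
    rw [h1]
    refine h3.deriv.trans ?_
    simp
  rw [h4, Finset.prod_ne_zero_iff]
  intro v hv
  rw [sub_ne_zero]
  exact (Finset.ne_of_mem_erase hv).symm

/-- off a finite set near a point -/
private theorem rx_fin {F : Set ℂ} (hF : F.Finite) (t : ℂ) : ∀ᶠ t' in 𝓝[≠] t, t' ∉ F := by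
  have h1 : (F \ {t})ᶜ ∈ 𝓝 t := (hF.subset Set.sdiff_subset).isClosed.isOpen_compl.mem_nhds (by simp)
  filter_upwards [mem_nhdsWithin_of_mem_nhds h1, self_mem_nhdsWithin] with t' h2 h3 h4
  exact h2 ⟨h4, h3⟩

/-- a bounded function with natural values has a maximum -/
private theorem rx_max {X : Type} (g : X → ℕ) {n : ℕ} (hg : ∀ x, g x ≤ n) {U : Set X} {x₀ : X} (hx₀ : x₀ ∈ U) : ∃ x₁ ∈ U, ∀ x ∈ U, g x ≤ g x₁ := by
  classical
  have hex : ∃ k, ∃ x ∈ U, n - g x = k := ⟨_, x₀, hx₀, rfl⟩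
  obtain ⟨x₁, hx₁, hk⟩ := Nat.find_spec hex
  refine ⟨x₁, hx₁, fun x hx => ?_⟩
  have h1 : Nat.find hex ≤ n - g x := Nat.find_min' hex ⟨x, hx, rfl⟩
  rw [← hk] at h1
  have h2 := hg x
  have h3 := hg x₁
  omega

/-- existence of the reduced polynomial -/
theorem rd_ex {f : E × ℂ → ℂ} (hf : AnalyticAt ℂ f (0, 0)) (hl : ∀ᶠ w in 𝓝[≠] (0 : ℂ), f (0, w) ≠ 0) :
    ∃ (δ r : ℝ) (c : E → ℂ) (s : E × ℂ → ℂ), 0 < δ ∧ 0 < r ∧ (∀ x ∈ ball (0 : E) δ, AnalyticAt ℂ c x ∧ ∃ᶠ x' in 𝓝 x, c x' ≠ 0) ∧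
      (∀ x ∈ ball (0 : E) δ, ∀ t : ℂ, AnalyticAt ℂ s (x, t)) ∧ (∀ x ∈ ball (0 : E) δ, ∀ t : ℂ, ‖t‖ < r → (s (x, t) = 0 ↔ f (x, t) = 0)) ∧
      (∀ x ∈ ball (0 : E) δ, ∀ t : ℂ, ∀ᶠ t' in 𝓝[≠] t, s (x, t') ≠ 0) ∧
      ∀ x ∈ ball (0 : E) δ, c x ≠ 0 → ∀ t : ℂ, s (x, t) = 0 → deriv (fun t => s (x, t)) t ≠ 0 := by
  obtain ⟨r, hr, hfr, hfn⟩ := rx_rad hf hl
  obtain ⟨δ₀, n, β, hδ₀, R⟩ := Pool.Agent.G4.K.exists_rsys hr hfr hfn
  -- the maximal number of different roots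
  have hcn : ∀ x, (Finset.univ.image (β x)).card ≤ n := fun x =>
    Finset.card_image_le.trans (by simp)
  obtain ⟨x₁, hx₁, hmax'⟩ := rx_max (fun x => (Finset.univ.image (β x)).card) hcn (mem_ball_self hδ₀ : (0 : E) ∈ ball (0 : E) δ₀)
  set q := (Finset.univ.image (β x₁)).card with hq
  have hmax : ∀ x ∈ ball (0 : E) δ₀, (Finset.univ.image (β x)).card ≤ q := hmax'
  have hcan := sc_an R q
  have hNan := sd_an R q
  have hne : ∀ x ∈ ball (0 : E) δ₀, ∃ᶠ x' in 𝓝 x, sc q (β x') ≠ 0 := by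
    intro x hx h1
    have h2 : (fun x => sc q (β x)) =ᶠ[𝓝 x] 0 := by
      filter_upwards [h1] with x' h3
      exact not_not.1 h3
    have h3 : AnalyticOnNhd ℂ (fun x => sc q (β x)) (ball (0 : E) δ₀) := fun x hx => hcan x hx
    have h4 := h3.eqOn_zero_of_preconnected_of_eventuallyEq_zero (convex_ball (0 : E) δ₀).isPreconnected hx h2 hx₁
    exact sc_ne rfl h4
  have hbd : ∀ x ∈ ball (0 : E) δ₀, ∀ t : ℂ, ‖(fun p : E × ℂ => sd q (β p.1) p.2) (x, t)‖ ≤ (‖t‖ + r) ^ q * ‖sc q (β x)‖ := by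
    intro x hx t
    rcases (hmax x hx).lt_or_eq with h1 | h1
    · simp only
      rw [sd_zero h1, sc_zero h1]
      simp
    · simp only
      rw [sd_eq h1, norm_mul, mul_comm]
      exact mul_le_mul_of_nonneg_right (img_le hr (fun i => (R.lt x hx i).le) h1 t).1 (norm_nonneg _)
  obtain ⟨δ, hδ, hsub, s, hs⟩ := riem isOpen_ball (mem_ball_self hδ₀) hcan hNan (hne 0 (mem_ball_self hδ₀)) hbd
  -- the values where `c x ≠ 0`
  have hval : ∀ x ∈ ball (0 : E) δ, sc q (β x) ≠ 0 → (Finset.univ.image (β x)).card = q ∧ ∀ t, s (x, t) = ∏ v ∈ Finset.univ.image (β x), (t - v) := by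
    intro x hx hc
    have h1 : (Finset.univ.image (β x)).card = q := by
      rcases (hmax x (hsub hx)).lt_or_eq with h1 | h1
      · exact absurd (sc_zero h1) hc
      · exact h1
    refine ⟨h1, fun t => ?_⟩
    have h2 := (hs x hx t).2
    simp only at h2
    rw [sd_eq h1, mul_comm (sc q (β x))] at h2
    exact mul_right_cancel₀ hc h2
  have hcontS : ∀ x ∈ ball (0 : E) δ, ∀ t, ContinuousAt (fun x => s (x, t)) x := by
    intro x hx t
    exact ContinuousAt.comp (g := s) (f := fun x : E => (x, t)) (hs x hx t).1.continuousAt (Continuous.prodMk_left t).continuousAt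
  have hcontP : ∀ x ∈ ball (0 : E) δ, ∀ t, ContinuousAt (fun x => ∏ i, (t - β x i)) x := by
    intro x hx t
    exact ContinuousAt.comp (g := fun p : E × ℂ => ∏ i, (p.2 - β p.1 i)) (f := fun x : E => (x, t)) (pr_an R x (hsub hx) t).continuousAt (Continuous.prodMk_left t).continuousAt
  have hfreq : ∀ x ∈ ball (0 : E) δ, ∃ᶠ x' in 𝓝 x, x' ∈ ball (0 : E) δ ∧ sc q (β x') ≠ 0 := by
    intro x hx
    exact ((hne x (hsub hx)).and_eventually (isOpen_ball.mem_nhds hx)).mono fun x' h => ⟨h.2, h.1⟩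
  have hle1 : ∀ x ∈ ball (0 : E) δ, ∀ t, ‖∏ i, (t - β x i)‖ ≤ (1 + ‖t‖ + r) ^ (n * n) * ‖s (x, t)‖ := by
    intro x hx t
    have h1 : Tendsto (fun x' => ‖∏ i, (t - β x' i)‖ - (1 + ‖t‖ + r) ^ (n * n) * ‖s (x', t)‖) (𝓝 x) (𝓝 (‖∏ i, (t - β x i)‖ - (1 + ‖t‖ + r) ^ (n * n) * ‖s (x, t)‖)) :=
      (hcontP x hx t).norm.sub (continuousAt_const.mul (hcontS x hx t).norm)
    have h2 : ‖∏ i, (t - β x i)‖ - (1 + ‖t‖ + r) ^ (n * n) * ‖s (x, t)‖ ≤ 0 := by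
      refine le_of_tendsto_of_frequently h1 ((hfreq x hx).mono fun x' h => ?_)
      obtain ⟨h3, h4⟩ := hval x' h.1 h.2
      rw [h4]
      have := (img_le hr (fun i => (R.lt x' (hsub h.1) i).le) h3 t).2.1
      linarith
    linarith
  have hle2 : ∀ x ∈ ball (0 : E) δ, ∀ t, ‖s (x, t)‖ ^ n ≤ (1 + ‖t‖ + r) ^ (n * n) * ‖∏ i, (t - β x i)‖ := by
    intro x hx t
    have h1 : Tendsto (fun x' => ‖s (x', t)‖ ^ n - (1 + ‖t‖ + r) ^ (n * n) * ‖∏ i, (t - β x' i)‖) (𝓝 x) (𝓝 (‖s (x, t)‖ ^ n - (1 + ‖t‖ + r) ^ (n * n) * ‖∏ i, (t - β x i)‖)) :=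
      ((hcontS x hx t).norm.pow n).sub (continuousAt_const.mul (hcontP x hx t).norm)
    have h2 : ‖s (x, t)‖ ^ n - (1 + ‖t‖ + r) ^ (n * n) * ‖∏ i, (t - β x i)‖ ≤ 0 := by
      refine le_of_tendsto_of_frequently h1 ((hfreq x hx).mono fun x' h => ?_)
      obtain ⟨h3, h4⟩ := hval x' h.1 h.2
      rw [h4]
      have := (img_le hr (fun i => (R.lt x' (hsub h.1) i).le) h3 t).2.2
      linarith
    linarith
  have hiff : ∀ x ∈ ball (0 : E) δ, ∀ t, s (x, t) = 0 ↔ ∃ i, t = β x i := by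
    intro x hx t
    have h0 : (∏ i, (t - β x i)) = 0 ↔ ∃ i, t = β x i := by
      rw [Finset.prod_eq_zero_iff]
      simp [sub_eq_zero]
    rw [← h0]
    constructor
    · intro h
      have h1 := hle1 x hx t
      rw [h, norm_zero, mul_zero] at h1
      exact norm_le_zero_iff.1 h1
    · intro h
      have h1 := hle2 x hx t
      rw [h, norm_zero, mul_zero] at h1
      have h2 : ‖s (x, t)‖ ^ n = 0 := le_antisymm h1 (by positivity)
      exact norm_eq_zero.1 (eq_zero_of_pow_eq_zero h2)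
  refine ⟨δ, r, fun x => sc q (β x), s, hδ, hr, fun x hx => ⟨hcan x (hsub hx), hne x (hsub hx)⟩, fun x hx t => (hs x hx t).1, fun x hx t ht => ?_, fun x hx t => ?_, fun x hx hc t ht => ?_⟩
  · rw [hiff x hx t, R.iff (hsub hx) ht.le]
  · filter_upwards [rx_fin (Set.finite_range (β x)) t] with t' h1 h2
    obtain ⟨i, hi⟩ := (hiff x hx t').1 h2
    exact h1 ⟨i, hi.symm⟩
  · exact rx_deriv (hval x hx hc).2 ht

end Pool.Agent.G4.RE
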